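import Mathlib
import Pool.Agent.Helper292.SP.Lib

set_option autoImplicit false

open Cardinal Set Pool.Agent.Helper292.SP

namespace Pool.Agent.Results.MP_e34318_lc.ForcedFailure

/-- There are a ground model well-ordered set `K` and a forcing notion `P` such that in every extension by `P`: `K` is a
cardinal, its cofinality is the regular cardinal `M` of order type `ω₁` of the ground model (so it is uncountable), and
`K → (K, ω + 1)²` fails. -/
theorem result : ∃ (K M P : Type) (_ : LinearOrder K) (_ : WellFoundedLT K) (_ : LinearOrder M) (_ : WellFoundedLT M)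
    (f : M → K) (_ : Preorder P), Nonempty P ∧ StrictMono f ∧ (∀ y, ∃ x, y ≤ f x) ∧
    Ordinal.type (α := M) (· < ·) = (ℵ₁ : Cardinal.{0}).ord ∧
    ∀ p : P, p ∈ IsCard P K ∧ p ∈ IsCard P M ∧ p ∈ IsReg P M ∧ p ∈ fnot (ArrowT P K (WithTop ℕ)) :=
  main_C

end Pool.Agent.Results.MP_e34318_lc.ForcedFailure
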